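import Pool.Agent.H354.BG.Stm

set_option autoImplicit false

/-! Project BG (helper354), task BAS: the basic functions on words are computable. -/

namespace Pool.Agent.H658.BG.BAS

open Pool.Agent.H354.BG
open Pool.Agent.H482R3.EA (W inv ev)
open Pool.Agent.H482R3.EB (tot wp)

theorem prim_inv (n : ℕ) : Primrec (fun u : W (Fin n) => inv u) := by
  have h : Primrec (fun u : W (Fin n) =>
      (u.map (fun a : Fin n × Bool => (a.1, !a.2))).reverse) :=
    Primrec.list_reverse.comp (Primrec.list_map Primrec.id
      (Primrec₂.mk (Primrec.pair (Primrec.fst.comp Primrec.snd)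
        (Primrec.not.comp (Primrec.snd.comp Primrec.snd)))))
  exact h

theorem wp_eq {S : Type} (s : S) (k l : ℕ) : wp s ((k : ℤ) - (l : ℤ)) =
    if l ≤ k then (List.range (k - l)).map (fun _ => (s, true))
      else (List.range (l - k)).map (fun _ => (s, false)) := by
  unfold wp
  by_cases h : l ≤ k
  · have h1 : (0 : ℤ) ≤ (k : ℤ) - (l : ℤ) := by omega
    have h2 : ((k : ℤ) - (l : ℤ)).toNat = k - l := by omega
    rw [if_pos h, if_pos h1, h2]
    simp
  · have h1 : ¬ (0 : ℤ) ≤ (k : ℤ) - (l : ℤ) := by omega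
    have h2 : (-((k : ℤ) - (l : ℤ))).toNat = l - k := by omega
    rw [if_neg h, if_neg h1, h2]
    simp

theorem prim_wp (n : ℕ) :
    Primrec (fun p : Fin n × (ℕ × ℕ) => wp p.1 ((p.2.1 : ℤ) - (p.2.2 : ℤ))) := by
  have hk : Primrec (fun p : Fin n × (ℕ × ℕ) => p.2.1) := Primrec.fst.comp Primrec.snd
  have hl : Primrec (fun p : Fin n × (ℕ × ℕ) => p.2.2) := Primrec.snd.comp Primrec.snd
  have h : Primrec (fun p : Fin n × (ℕ × ℕ) =>
      if p.2.2 ≤ p.2.1 then (List.range (p.2.1 - p.2.2)).map (fun _ => (p.1, true))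
      else (List.range (p.2.2 - p.2.1)).map (fun _ => (p.1, false))) := by
    refine Primrec.ite (Primrec.nat_le.comp hl hk) ?_ ?_
    · exact Primrec.list_map (Primrec.list_range.comp (Primrec.nat_sub.comp hk hl))
        (Primrec₂.mk (Primrec.pair (Primrec.fst.comp Primrec.fst) (Primrec.const true)))
    · exact Primrec.list_map (Primrec.list_range.comp (Primrec.nat_sub.comp hl hk))
        (Primrec₂.mk (Primrec.pair (Primrec.fst.comp Primrec.fst) (Primrec.const false)))
  exact h.of_eq fun p => (wp_eq p.1 p.2.1 p.2.2).symm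

/-- filters whose condition depends on a parameter from a finite set -/
theorem prim_filter (n : ℕ) {α F : Type} [Primcodable α] [Primcodable F] [Finite F]
    (f : α → W (Fin n)) (g : α → F) (hf : Primrec f) (hg : Primrec g)
    (q : F → Fin n × Bool → Bool) : Primrec (fun x => (f x).filter (q (g x))) := by
  have hq : Primrec (fun y : F × (Fin n × Bool) => if q y.1 y.2 = true then some y.2 else none) :=
    Primrec.dom_finite _
  have h : Primrec₂ (fun (x : α) (a : Fin n × Bool) =>
      if q (g x) a = true then some a else none) :=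
    Primrec₂.mk (hq.comp (Primrec.pair (hg.comp Primrec.fst) Primrec.snd))
  refine (Primrec.listFilterMap hf h).of_eq fun x => ?_
  rw [← List.filterMap_eq_filter]
  congr 1

/-- number of letters with sign `b` -/
def cn {S : Type} (b : Bool) (u : W S) : ℕ := (u.filter (fun a => decide (a.2 = b))).length

theorem tot_eq {S : Type} (u : W S) : tot u = (cn true u : ℤ) - (cn false u : ℤ) := by
  induction u with
  | nil => simp [tot, cn]
  | cons a u ih =>
    have h1 : tot (a :: u) = (if a.2 then (1 : ℤ) else -1) + tot u := by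
      simp [tot]
    rw [h1, ih]
    rcases a with ⟨s, b⟩
    cases b
    · simp [cn]
      ring
    · simp [cn]
      ring

theorem cn_eq {S : Type} (b : Bool) (u : W S) : cn b u = u.countP (fun a => decide (a.2 = b)) := by
  unfold cn
  rw [List.countP_eq_length_filter]

theorem prim_cn (n : ℕ) (b : Bool) : Primrec (fun u : W (Fin n) => cn b u) := by
  have h := prim_filter n (fun u : W (Fin n) => u) (fun _ => ()) Primrec.id (Primrec.const ())
    (fun _ a => decide (a.2 = b))
  exact Primrec.list_length.comp h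

theorem prim_flt (D : Dat) (U : Finset (Fin D.r)) : Primrec (fun u : W (Fin D.n) => flt D U u) :=
  prim_filter D.n (fun u : W (Fin D.n) => u) (fun _ => ()) Primrec.id (Primrec.const ())
    (fun _ a => decide (D.β a.1 ∈ U))

theorem prim_flt2 (D : Dat) (V : Fin D.n → Finset (Fin D.r)) :
    Primrec (fun p : Fin D.n × W (Fin D.n) => flt D (V p.1) p.2) :=
  prim_filter D.n (fun p : Fin D.n × W (Fin D.n) => p.2) (fun p => p.1) Primrec.snd Primrec.fst
    (fun s a => decide (D.β a.1 ∈ V s))

theorem t_BASX : S_BASX := by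
  intro D
  have hc : ∀ b : Bool, Primrec (fun p : Fin D.n × W (Fin D.n) =>
      cn b (flt D {D.β p.1} p.2)) := fun b =>
    (prim_cn D.n b).comp (prim_flt2 D (fun s => {D.β s}))
  refine ⟨(prim_inv D.n).to_comp, fun U => (prim_flt D U).to_comp, (prim_wp D.n).to_comp, ?_, ?_,
    fun U => (prim_flt2 D (fun s => pZ D U (D.β s))).to_comp, ?_⟩
  · have h : Primrec (fun p : Fin D.n × W (Fin D.n) =>
        wp p.1 ((cn true (flt D {D.β p.1} p.2) : ℤ) - (cn false (flt D {D.β p.1} p.2) : ℤ))) :=
      (prim_wp D.n).comp (Primrec.pair Primrec.fst (Primrec.pair (hc true) (hc false)))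
    exact (h.of_eq fun p => by rw [eg_gEl, tot_eq]).to_comp
  · have h : Primrec (fun p : Fin D.n × W (Fin D.n) =>
        wp p.1 ((cn false (flt D {D.β p.1} p.2) : ℤ) - (cn true (flt D {D.β p.1} p.2) : ℤ))) :=
      (prim_wp D.n).comp (Primrec.pair Primrec.fst (Primrec.pair (hc false) (hc true)))
    exact (h.of_eq fun p => by rw [eg_gEl, tot_eq, neg_sub]).to_comp
  · intro b
    have h : Primrec (fun u : W (Fin D.n) => (cn true (flt D {b} u), cn false (flt D {b} u))) :=
      Primrec.pair ((prim_cn D.n true).comp (prim_flt D {b}))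
        ((prim_cn D.n false).comp (prim_flt D {b}))
    exact (h.of_eq fun u => by rw [cn_eq, cn_eq]).to_comp

end Pool.Agent.H658.BG.BAS
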